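import Pool.Agent.Helper43.LB.Defs

/-!
# Homogeneity and continuity of `Dd`
-/

namespace Pool.Agent.Helper43.LB

open Filter Topology

theorem Ff_mul (M : ℝ) (hM : 0 < M) (y : ℝ) : Ff (M * y) = M * Ff y + M * y * Real.log M := by
  unfold Ff
  rcases eq_or_ne y 0 with rfl | hy
  · simp
  · rw [Real.log_mul hM.ne' hy]
    ring

theorem Gf_mul (M : ℝ) (hM : 0 < M) (y : ℝ) :
    Gf (M * y) = M ^ 2 * Gf y + M ^ 2 * (y ^ 2 / 2) * Real.log M := by
  unfold Gf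
  rcases eq_or_ne y 0 with rfl | hy
  · simp
  · rw [Real.log_mul hM.ne' hy]
    ring

theorem Vf_mul (M : ℝ) (hM : 0 < M) (a b : ℝ) :
    Vf (M * a) (M * b) = M ^ 2 * Vf a b + M ^ 2 * (b - a) ^ 2 * Real.log M := by
  unfold Vf
  rw [show M * b - M * a = M * (b - a) by ring, show 2 * (M * b) = M * (2 * b) by ring,
    show 2 * (M * a) = M * (2 * a) by ring, show M * a + M * b = M * (a + b) by ring,
    Gf_mul M hM, Gf_mul M hM, Gf_mul M hM, Gf_mul M hM]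
  ring

theorem Sf_mul (M : ℝ) (hM : 0 < M) (m p : ℝ) : Sf (M * m) (M * p) = M ^ 2 * Sf m p := by
  unfold Sf
  rw [show 2 * (M * p) + 2 * (M * m) = M * (2 * p + 2 * m) by ring,
    show 2 * (M * p) + M * m = M * (2 * p + m) by ring,
    show 2 * (M * p) = M * (2 * p) by ring, show 2 * (M * m) = M * (2 * m) by ring,
    Gf_mul M hM, Gf_mul M hM, Gf_mul M hM, Gf_mul M hM, Gf_mul M hM]
  ring

theorem B1_mul (M : ℝ) (hM : 0 < M) (m w p a b : ℝ) :
    B1 (M * m) (M * w) (M * p) (M * a) (M * b) = M * B1 m w p a b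
      + M * (b - a - m) * Real.log M := by
  unfold B1
  rw [show 2 * (M * m) = M * (2 * m) by ring, show 2 * (M * p) + M * m = M * (2 * p + m) by ring,
    show 2 * (M * p) = M * (2 * p) by ring, show M * a + M * b = M * (a + b) by ring,
    show 2 * (M * a) = M * (2 * a) by ring, show M * m + M * w = M * (m + w) by ring]
  simp only [Ff_mul M hM]
  ring

theorem B2_mul (M : ℝ) (hM : 0 < M) (m w p a b : ℝ) :
    B2 (M * m) (M * w) (M * p) (M * a) (M * b) = M * B2 m w p a b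
      + M * (2 * m - 2 * b + 2 * a) * Real.log M := by
  unfold B2
  rw [show 2 * (M * p) + 2 * (M * m) = M * (2 * p + 2 * m) by ring,
    show 2 * (M * p) = M * (2 * p) by ring, show 2 * (M * m) = M * (2 * m) by ring,
    show M * m - M * w = M * (m - w) by ring, show M * m + M * w = M * (m + w) by ring]
  simp only [Ff_mul M hM]
  ring

theorem B3_mul (M : ℝ) (hM : 0 < M) (m w p a b : ℝ) :
    B3 (M * m) (M * w) (M * p) (M * a) (M * b) = M * B3 m w p a b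
      + M * (m - b + a) * Real.log M := by
  unfold B3
  rw [show 2 * (M * p) + 2 * (M * m) = M * (2 * p + 2 * m) by ring,
    show 2 * (M * p) + M * m = M * (2 * p + m) by ring,
    show 2 * (M * m) = M * (2 * m) by ring, show 2 * (M * b) = M * (2 * b) by ring,
    show M * a + M * b = M * (a + b) by ring, show M * m + M * w = M * (m + w) by ring]
  simp only [Ff_mul M hM]
  ring

theorem Dd_hom (M : ℝ) (hM : 0 < M) (k w j p : ℝ) (h : p + k + w ≠ 0) :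
    Dd (M * k) (M * w) (M * j) (M * p) = M ^ 2 * Dd k w j p := by
  have hM' := hM.ne'
  have e1 : M * w / (2 * (M * (p + k + w))) = w / (2 * (p + k + w)) := by
    field_simp
  have e2 : cB * (M * w) / (2 * (M * (p + k + w))) = cB * w / (2 * (p + k + w)) := by
    field_simp
  have e3 : 2 * (M * (p + k)) / (M * j) = 2 * (p + k) / j := by
    rw [show 2 * (M * (p + k)) = M * (2 * (p + k)) by ring,
      mul_div_mul_left _ _ hM']
  have e4 : 8 * (M * j) ^ 2 * (M * k) / (M * (p + k)) = M ^ 2 * (8 * j ^ 2 * k / (p + k)) := by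
    rw [show 8 * (M * j) ^ 2 * (M * k) = M * (M ^ 2 * (8 * j ^ 2 * k)) by ring,
      mul_div_mul_left _ _ hM', mul_div_assoc]
  have e5 : Real.log (M * (p + k + w)) = Real.log M + Real.log (p + k + w) :=
    Real.log_mul hM' h
  have e6 : cB * w / (2 * (p + k + w)) = cB * (w / (2 * (p + k + w))) := mul_div_assoc _ _ _
  unfold Dd
  rw [show M * p + M * k + M * j = M * (p + k + j) by ring,
    show M * p + M * k + M * w = M * (p + k + w) by ring,
    show M * p + M * k = M * (p + k) by ring,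
    show 2 * (M * k) + M * j = M * (2 * k + j) by ring,
    show 2 * (M * k + M * w - M * j) = M * (2 * (k + w - j)) by ring,
    show 2 * (M * k + M * w) = M * (2 * (k + w)) by ring,
    show 2 * (M * k) + M * w - M * j = M * (2 * k + w - j) by ring,
    show 2 * (M * k) + M * w = M * (2 * k + w) by ring,
    show 2 * (M * k) = M * (2 * k) by ring,
    show M * p + M * j = M * (p + j) by ring, e1, e2, e3, e4, e5]
  simp only [Vf_mul M hM, Sf_mul M hM, Gf_mul M hM, B1_mul M hM, B2_mul M hM, B3_mul M hM]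
  rw [e6]
  generalize w / (2 * (p + k + w)) = z
  ring

/-! ### continuity -/

theorem continuous_Ff : Continuous Ff := by
  unfold Ff
  exact Real.continuous_mul_log.sub continuous_id

theorem continuous_Gf : Continuous Gf := by
  have : Gf = fun y => y / 2 * (y * Real.log y) - 3 / 4 * y ^ 2 := by
    funext y
    unfold Gf
    ring
  rw [this]
  exact ((continuous_id.div_const 2).mul Real.continuous_mul_log).sub
    (continuous_const.mul (continuous_id.pow 2))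

theorem tendsto_Ff {ι : Type*} {l : Filter ι} {f : ι → ℝ} {a : ℝ} (h : Tendsto f l (𝓝 a)) :
    Tendsto (fun i => Ff (f i)) l (𝓝 (Ff a)) := (continuous_Ff.tendsto a).comp h

theorem tendsto_Gf {ι : Type*} {l : Filter ι} {f : ι → ℝ} {a : ℝ} (h : Tendsto f l (𝓝 a)) :
    Tendsto (fun i => Gf (f i)) l (𝓝 (Gf a)) := (continuous_Gf.tendsto a).comp h

section tend

variable {ι : Type*} {l : Filter ι}

theorem tendsto_Vf {f g : ι → ℝ} {a b : ℝ} (hf : Tendsto f l (𝓝 a)) (hg : Tendsto g l (𝓝 b)) :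
    Tendsto (fun i => Vf (f i) (g i)) l (𝓝 (Vf a b)) := by
  unfold Vf
  exact (((tendsto_Gf (hg.sub hf)).add ((tendsto_Gf (hg.const_mul 2)).div_const 2)).add
    ((tendsto_Gf (hf.const_mul 2)).div_const 2)).sub (tendsto_Gf (hf.add hg))

theorem tendsto_Sf {f g : ι → ℝ} {m p : ℝ} (hf : Tendsto f l (𝓝 m)) (hg : Tendsto g l (𝓝 p)) :
    Tendsto (fun i => Sf (f i) (g i)) l (𝓝 (Sf m p)) := by
  unfold Sf
  exact ((((tendsto_Gf hf).add ((tendsto_Gf ((hg.const_mul 2).add (hf.const_mul 2))).div_const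
    2)).add ((tendsto_Gf (hg.const_mul 2)).div_const 2)).sub
    (tendsto_Gf ((hg.const_mul 2).add hf))).sub ((tendsto_Gf (hf.const_mul 2)).div_const 2)

theorem tendsto_B1 {f1 f2 f3 f4 f5 : ι → ℝ} {m w p a b : ℝ} (hm : Tendsto f1 l (𝓝 m))
    (hw : Tendsto f2 l (𝓝 w)) (hp : Tendsto f3 l (𝓝 p)) (ha : Tendsto f4 l (𝓝 a))
    (hb : Tendsto f5 l (𝓝 b)) :
    Tendsto (fun i => B1 (f1 i) (f2 i) (f3 i) (f4 i) (f5 i)) l (𝓝 (B1 m w p a b)) := by
  unfold B1
  exact (((((((tendsto_Ff (hm.const_mul 2)).add (tendsto_Ff (hp.const_mul 2))).add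
    (tendsto_Ff hw)).add (tendsto_Ff (ha.add hb))).sub (tendsto_Ff hm)).sub
    (tendsto_Ff ((hp.const_mul 2).add hm))).sub (tendsto_Ff (ha.const_mul 2))).sub
    (tendsto_Ff (hm.add hw))

theorem tendsto_B2 {f1 f2 f3 f4 f5 : ι → ℝ} {m w p a b : ℝ} (hm : Tendsto f1 l (𝓝 m))
    (hw : Tendsto f2 l (𝓝 w)) (hp : Tendsto f3 l (𝓝 p)) (ha : Tendsto f4 l (𝓝 a))
    (hb : Tendsto f5 l (𝓝 b)) :
    Tendsto (fun i => B2 (f1 i) (f2 i) (f3 i) (f4 i) (f5 i)) l (𝓝 (B2 m w p a b)) := by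
  unfold B2
  exact ((((((((tendsto_Ff hm).const_mul 2).add
    (tendsto_Ff ((hp.const_mul 2).add (hm.const_mul 2)))).sub (tendsto_Ff (hp.const_mul 2))).sub
    ((tendsto_Ff (hm.const_mul 2)).const_mul 2)).add (tendsto_Ff (hm.sub hw))).add
    (tendsto_Ff (hm.add hw))).sub ((tendsto_Ff hb).const_mul 2)).add
    ((tendsto_Ff ha).const_mul 2)

theorem tendsto_B3 {f1 f2 f3 f4 f5 : ι → ℝ} {m w p a b : ℝ} (hm : Tendsto f1 l (𝓝 m))
    (hw : Tendsto f2 l (𝓝 w)) (hp : Tendsto f3 l (𝓝 p)) (ha : Tendsto f4 l (𝓝 a))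
    (hb : Tendsto f5 l (𝓝 b)) :
    Tendsto (fun i => B3 (f1 i) (f2 i) (f3 i) (f4 i) (f5 i)) l (𝓝 (B3 m w p a b)) := by
  unfold B3
  exact (((((((tendsto_Ff hm).add
    (tendsto_Ff ((hp.const_mul 2).add (hm.const_mul 2)))).sub
    (tendsto_Ff ((hp.const_mul 2).add hm))).sub
    (tendsto_Ff (hm.const_mul 2))).sub (tendsto_Ff hw)).sub (tendsto_Ff (hb.const_mul 2))).add
    (tendsto_Ff (ha.add hb))).add (tendsto_Ff (hm.add hw))

theorem tendsto_Dd {f1 f2 f3 f4 : ι → ℝ} {k w j p : ℝ} (hk : Tendsto f1 l (𝓝 k))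
    (hw : Tendsto f2 l (𝓝 w)) (hj : Tendsto f3 l (𝓝 j)) (hp : Tendsto f4 l (𝓝 p))
    (k0 : 0 < k) (w0 : 0 < w) (j0 : 0 < j) (p0 : 0 < p) :
    Tendsto (fun i => Dd (f1 i) (f2 i) (f3 i) (f4 i)) l (𝓝 (Dd k w j p)) := by
  have hb : Tendsto (fun i => f4 i + f1 i + f2 i) l (𝓝 (p + k + w)) := (hp.add hk).add hw
  have ha : Tendsto (fun i => f4 i + f1 i) l (𝓝 (p + k)) := hp.add hk
  have hm : Tendsto (fun i => 2 * f1 i + f2 i) l (𝓝 (2 * k + w)) := (hk.const_mul 2).add hw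
  have hb0 : (2 * (p + k + w)) ≠ 0 := by positivity
  have ha0 : p + k ≠ 0 := by positivity
  have hb1 : p + k + w ≠ 0 := by positivity
  have hlog : (1 + 2 * (p + k) / j) ≠ 0 := by positivity
  have hz : Tendsto (fun i => f2 i / (2 * (f4 i + f1 i + f2 i))) l (𝓝 (w / (2 * (p + k + w)))) :=
    hw.div (hb.const_mul 2) hb0
  unfold Dd
  refine Tendsto.sub (Tendsto.sub (Tendsto.add (Tendsto.sub (Tendsto.const_mul 2
    (Tendsto.add (Tendsto.sub ?_ ?_) ?_)) ?_) (Tendsto.mul (hj.const_mul 2)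
    (Tendsto.add (Tendsto.add (Tendsto.sub ?_ ?_) ?_) ?_))) ?_) ?_
  · exact ((tendsto_Vf (ha.add hj) hb).sub (((tendsto_Gf ((hk.const_mul 2).add hj)).sub
      (tendsto_Gf hj)).div_const 2)).sub
      ((tendsto_Gf (((hk.add hw).sub hj).const_mul 2)).div_const 2)
  · exact ((tendsto_Vf ha hb).sub ((tendsto_Gf (hk.const_mul 2)).div_const 2)).sub
      ((tendsto_Gf ((hk.add hw).const_mul 2)).div_const 2)
  · exact tendsto_Sf hm hp
  · exact tendsto_Sf (hm.sub hj) (hp.add hj)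
  · exact (tendsto_B1 hm hw hp ha hb).const_mul _
  · exact (tendsto_B3 hm hw hp ha hb).const_mul _
  · exact (tendsto_const_nhds.sub ((hw.const_mul cB).div (hb.const_mul 2) hb0)).mul
      ((tendsto_B2 hm hw hp ha hb).div_const 4)
  · exact hz.mul (((hk.const_mul cA).add ((hk.const_mul cB).mul (hb.log hb1))).sub
      (hb.const_mul cI))
  · exact ((hj.pow 2).const_mul 5).mul ((tendsto_const_nhds.add
      ((ha.const_mul 2).div hj j0.ne')).log hlog)
  · exact (((hj.pow 2).const_mul 8).mul hk).div ha ha0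

end tend

theorem Dd_scale (κ ω ε P : ℝ) (hκ : 0 < κ) (hε : 0 < ε) (hεω : ε < ω) (hP : 0 < P) :
    Filter.Tendsto (fun M : ℕ => Dd (⌊κ * M⌋₊ : ℝ) (⌊ω * M⌋₊ : ℝ) (⌊ε * M⌋₊ : ℝ) (⌊P * M⌋₊ : ℝ)
      / (M : ℝ) ^ 2) Filter.atTop (nhds (Dd κ ω ε P)) := by
  have hω : 0 < ω := hε.trans hεω
  have hfl : ∀ c : ℝ, 0 < c → Tendsto (fun M : ℕ => ((⌊c * M⌋₊ : ℕ) : ℝ) / (M : ℝ)) atTop (𝓝 c) := by
    intro c hc
    exact (tendsto_nat_floor_mul_div_atTop hc.le).comp tendsto_natCast_atTop_atTop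
  have key := tendsto_Dd (hfl κ hκ) (hfl ω hω) (hfl ε hε) (hfl P hP) hκ hω hε hP
  refine key.congr' ?_
  have hev : ∀ᶠ M : ℕ in atTop, 0 < ((⌊P * M⌋₊ : ℕ) : ℝ) / (M : ℝ) :=
    (hfl P hP).eventually (lt_mem_nhds hP)
  filter_upwards [hev, eventually_gt_atTop 0] with M h1 hM
  have hM' : (0 : ℝ) < M := by exact_mod_cast hM
  have hne : ((⌊P * M⌋₊ : ℕ) : ℝ) / (M : ℝ) + ((⌊κ * M⌋₊ : ℕ) : ℝ) / (M : ℝ)
      + ((⌊ω * M⌋₊ : ℕ) : ℝ) / (M : ℝ) ≠ 0 := by
    have h2 : (0 : ℝ) ≤ ((⌊κ * M⌋₊ : ℕ) : ℝ) / (M : ℝ) := by positivity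
    have h3 : (0 : ℝ) ≤ ((⌊ω * M⌋₊ : ℕ) : ℝ) / (M : ℝ) := by positivity
    linarith
  have e := Dd_hom (M : ℝ) hM' (((⌊κ * M⌋₊ : ℕ) : ℝ) / M) (((⌊ω * M⌋₊ : ℕ) : ℝ) / M)
    (((⌊ε * M⌋₊ : ℕ) : ℝ) / M) (((⌊P * M⌋₊ : ℕ) : ℝ) / M) hne
  have c : ∀ x : ℝ, (M : ℝ) * (x / M) = x := fun x => by field_simp
  rw [c, c, c, c] at e
  rw [e]
  field_simp

end Pool.Agent.Helper43.LB
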