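import Pool.Agent.Helper78.LB.SliceSum
import Pool.Agent.Helper43.LB.Alt

/-!
# The number of fillings of the tail shape
-/

namespace Pool.Agent.Helper43.LB

/-- The number of fillings of the tail is the sum over the subsets. -/
theorem NE_tail (k w j p : ℕ) (hj : j ≤ w) :
    (NE (2 * k + 1 + w) p (p + j) (eTail (2 * k + 1 + w) k j) : ℝ) = Tf k w j p :=
  Pool.Agent.Helper78.LB.NE_tail_of LG_plus LG_grow LG_Lf LG_Lh k w j p hj

end Pool.Agent.Helper43.LB
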