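import Mathlib
import Pool.Agent.Helper43.LB.Defs

/-!
# Interlacing arrays

Arrays `A s i` (`s ≤ t`, `i < szz K s`) with `A (s+1) i ≤ A s i ≤ A (s+1) (i+1)`, all entries `≤ P`,
are counted by the determinants `LG`.
-/

namespace Pool.Agent.Helper78.LB

open Finset Pool.Agent.Helper43.LB

/-- size of the `s`-th diagonal -/
def szz (K s : ℕ) : ℕ := min ((s + 1) / 2) K

/-- interlacing arrays -/
structure Arr (K P t : ℕ) (A : ℕ → ℕ → ℕ) : Prop where
  out : ∀ s i, ¬ (s ≤ t ∧ i < szz K s) → A s i = 0
  le : ∀ s i, A s i ≤ P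
  dn : ∀ s i, s + 1 ≤ t → i < szz K s → A (s + 1) i ≤ A s i
  up : ∀ s i, s + 1 ≤ t → i < szz K s → i + 1 < szz K (s + 1) → A s i ≤ A (s + 1) (i + 1)

/-- interlacing arrays with prescribed last diagonal -/
def AS (K P t : ℕ) (D : ℕ → ℕ) : Type :=
  {A : ℕ → ℕ → ℕ // Arr K P t A ∧ ∀ i < szz K t, A t i = D i}

/-- positions -/
def xs (P q : ℕ) (D : ℕ → ℕ) : Fin q → ℕ := fun i => P + q - i - D i

theorem xs_apply (P q : ℕ) (D : ℕ → ℕ) (i : Fin q) : xs P q D i = P + q - i - D i := rfl

/-- monotone and bounded -/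
def GD (q P : ℕ) (D : ℕ → ℕ) : Prop := (∀ i, i + 1 < q → D i ≤ D (i + 1)) ∧ ∀ i < q, D i ≤ P

/-- extension by zero -/
def ext (q : ℕ) (d : Fin q → ℕ) : ℕ → ℕ := fun i => if h : i < q then d ⟨i, h⟩ else 0

theorem ext_of (q : ℕ) (d : Fin q → ℕ) (i : ℕ) (h : i < q) : ext q d i = d ⟨i, h⟩ := by
  simp [ext, h]

/-- the box of possible previous diagonals -/
def box (P q q' : ℕ) (D' : ℕ → ℕ) : Finset (Fin q → ℕ) :=
  Fintype.piFinset fun i : Fin q => Icc (D' i) (if (i : ℕ) + 1 < q' then D' (i + 1) else P)

theorem mem_box (P q q' : ℕ) (D' : ℕ → ℕ) (d : Fin q → ℕ) : d ∈ box P q q' D' ↔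
    ∀ i : Fin q, D' i ≤ d i ∧ d i ≤ (if (i : ℕ) + 1 < q' then D' (i + 1) else P) := by
  simp [box, Fintype.mem_piFinset, mem_Icc]

theorem szz_succ (K s : ℕ) : szz K s ≤ szz K (s + 1) ∧ szz K (s + 1) ≤ szz K s + 1 := by
  unfold szz; omega

theorem GD_of_box (P q q' : ℕ) (D' : ℕ → ℕ) (hq : q ≤ q') (hD : GD q' P D') (d : Fin q → ℕ)
    (hd : d ∈ box P q q' D') : GD q P (ext q d) := by
  rw [mem_box] at hd
  constructor
  · intro i hi
    rw [ext_of q d i (by omega), ext_of q d (i + 1) hi]
    have h1 := (hd ⟨i, by omega⟩).2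
    have h2 := (hd ⟨i + 1, hi⟩).1
    simp only at h1 h2
    rw [if_pos (by omega)] at h1
    exact h1.trans h2
  · intro i hi
    rw [ext_of q d i hi]
    have h1 := (hd ⟨i, hi⟩).2
    simp only at h1
    split_ifs at h1 with h
    · exact h1.trans (hD.2 _ h)
    · exact h1

section step

variable (K P t : ℕ) (D' : ℕ → ℕ)

/-- the last but one diagonal -/
def prev (x : AS K P (t + 1) D') : {d : Fin (szz K t) → ℕ // d ∈ box P (szz K t) (szz K (t + 1)) D'} :=
  ⟨fun i => x.1 t i, by
    rw [mem_box]
    intro i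
    obtain ⟨A, hA, hl⟩ := x
    have hs := szz_succ K t
    have hi := i.2
    constructor
    · have := hA.dn t i le_rfl hi
      rw [hl i (by omega)] at this
      exact this
    · split_ifs with h
      · have := hA.up t i le_rfl hi h
        rw [hl _ h] at this
        exact this
      · exact hA.le _ _⟩

/-- arrays with prescribed last two diagonals -/
def stepEquiv (hD : GD (szz K (t + 1)) P D')
    (d : {d : Fin (szz K t) → ℕ // d ∈ box P (szz K t) (szz K (t + 1)) D'}) :
    {x : AS K P (t + 1) D' // prev K P t D' x = d} ≃ AS K P t (ext _ d.1) where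
  toFun x := ⟨fun s i => if s ≤ t then x.1.1 s i else 0, by
    obtain ⟨⟨A, hA, hl⟩, hx⟩ := x
    constructor
    · constructor
      · intro s i h
        by_cases hs : s ≤ t
        · simp only [hs, if_true]
          exact hA.out s i (by rintro ⟨-, h2⟩; exact h ⟨hs, h2⟩)
        · simp [hs]
      · intro s i
        dsimp only
        split_ifs
        · exact hA.le _ _
        · exact Nat.zero_le _
      · intro s i hs hi
        simp only [hs, if_true, show s ≤ t by omega]
        exact hA.dn s i (by omega) hi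
      · intro s i hs hi h2
        simp only [hs, if_true, show s ≤ t by omega]
        exact hA.up s i (by omega) hi h2
    · intro i hi
      simp only [le_rfl, if_true]
      rw [ext_of _ _ _ hi, ← hx]
      rfl⟩
  invFun A := ⟨⟨fun s i => if s = t + 1 then (if i < szz K (t + 1) then D' i else 0) else A.1 s i, by
      obtain ⟨A, hA, hl⟩ := A
      obtain ⟨d, hd⟩ := d
      rw [mem_box] at hd
      dsimp only at hl ⊢
      have hs := szz_succ K t
      constructor
      · constructor
        · intro s i h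
          split_ifs with h1 h2
          · subst h1
            exact absurd ⟨le_rfl, h2⟩ h
          · rfl
          · apply hA.out
            rintro ⟨h3, h4⟩
            exact h ⟨by omega, h4⟩
        · intro s i
          split_ifs with h1 h2
          · exact hD.2 _ h2
          · exact Nat.zero_le _
          · exact hA.le _ _
        · intro s i h1 h2
          by_cases h3 : s = t
          · subst h3
            have := (hd ⟨i, h2⟩).1
            rw [if_pos rfl, if_pos (by omega), if_neg (by omega), hl i h2, ext_of _ _ _ h2]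
            exact this
          · rw [if_neg (by omega), if_neg (by omega)]
            exact hA.dn s i (by omega) h2
        · intro s i h1 h2 h4
          by_cases h3 : s = t
          · subst h3
            have := (hd ⟨i, h2⟩).2
            dsimp only at this
            rw [if_pos h4] at this
            rw [if_pos rfl, if_pos h4, if_neg (by omega), hl i h2, ext_of _ _ _ h2]
            exact this
          · rw [if_neg (by omega), if_neg (by omega)]
            exact hA.up s i (by omega) h2 h4
      · intro i hi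
        rw [if_pos rfl, if_pos hi]⟩, by
    obtain ⟨A, hA, hl⟩ := A
    apply Subtype.ext
    funext i
    show (if t = t + 1 then (if (i : ℕ) < szz K (t + 1) then D' i else 0) else A t i) = d.1 i
    rw [if_neg (by omega), hl i i.2, ext_of _ _ _ i.2]⟩
  left_inv x := by
    obtain ⟨⟨A, hA, hl⟩, hx⟩ := x
    apply Subtype.ext
    apply Subtype.ext
    funext s i
    show (if s = t + 1 then (if i < szz K (t + 1) then D' i else 0)
      else (if s ≤ t then A s i else 0)) = A s i
    split_ifs with h1 h2 h3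
    · subst h1; exact (hl i h2).symm
    · subst h1; exact (hA.out _ _ (by rintro ⟨-, h⟩; exact h2 h)).symm
    · rfl
    · exact (hA.out _ _ (by rintro ⟨h, -⟩; omega)).symm
  right_inv A := by
    obtain ⟨A, hA, hl⟩ := A
    apply Subtype.ext
    funext s i
    show (if s ≤ t then (if s = t + 1 then (if i < szz K (t + 1) then D' i else 0) else A s i) else 0)
      = A s i
    split_ifs with h1 h2 h3
    · omega
    · omega
    · rfl
    · exact (hA.out _ _ (by rintro ⟨h, -⟩; omega)).symm

theorem card_step (hD : GD (szz K (t + 1)) P D')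
    (hf : ∀ d ∈ box P (szz K t) (szz K (t + 1)) D', Finite (AS K P t (ext _ d))) :
    Finite (AS K P (t + 1) D') ∧ Nat.card (AS K P (t + 1) D')
      = ∑ d ∈ box P (szz K t) (szz K (t + 1)) D', Nat.card (AS K P t (ext _ d)) := by
  have e1 := (Equiv.sigmaFiberEquiv (prev K P t D')).symm.trans
    (Equiv.sigmaCongrRight (stepEquiv K P t D' hD))
  have : ∀ d : {d : Fin (szz K t) → ℕ // d ∈ box P (szz K t) (szz K (t + 1)) D'},
      Finite (AS K P t (ext _ d.1)) := fun d => hf d.1 d.2
  refine ⟨Finite.of_equiv _ e1.symm, ?_⟩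
  rw [Nat.card_congr e1, Nat.card_sigma]
  exact Finset.sum_coe_sort (box P (szz K t) (szz K (t + 1)) D')
    (fun d => Nat.card (AS K P t (ext _ d)))

end step

/-! ### the sums of determinants in the coordinates `D` -/

variable (hplus : ∀ (k e : ℕ) (x : Fin k → ℕ), StrictAnti x → (∀ i, 1 ≤ x i) →
  ∑ y ∈ Fintype.piFinset (fun i : Fin k =>
      Ioc (if h : (i : ℕ) + 1 < k then x ⟨i + 1, h⟩ else 0) (x i)), LG k e y = LG k (e + 1) x)
variable (hgrow : ∀ (k : ℕ) (x : Fin (k + 1) → ℕ), StrictAnti x → (∀ i, 1 ≤ x i) →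
  ∑ y ∈ Fintype.piFinset (fun i : Fin k => Ico (x i.succ) (x i.castSucc)), LG k 1 y
      = LG (k + 1) 0 x)

theorem GD_mono {q P : ℕ} {D : ℕ → ℕ} (h : GD q P D) (i j : ℕ) (hij : i ≤ j) (hj : j < q) :
    D i ≤ D j := by
  induction j with
  | zero =>
    have : i = 0 := by omega
    rw [this]
  | succ j ih =>
    rcases Nat.lt_or_ge j i with h1 | h1
    · have : i = j + 1 := by omega
      rw [this]
    · exact (ih h1 (by omega)).trans (h.1 j hj)

theorem xs_anti {q P : ℕ} {D : ℕ → ℕ} (h : GD q P D) : StrictAnti (xs P q D) := by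
  intro i j hij
  have h1 : (i : ℕ) < j := hij
  have h2 := GD_mono h i j h1.le j.2
  have h3 := h.2 j j.2
  have h4 := h.2 i i.2
  have h5 := j.2
  show P + q - (j : ℕ) - D j < P + q - (i : ℕ) - D i
  omega

theorem xs_pos {q P : ℕ} {D : ℕ → ℕ} (h : GD q P D) (i : Fin q) : 1 ≤ xs P q D i := by
  have h4 := h.2 i i.2
  have h5 := i.2
  show 1 ≤ P + q - (i : ℕ) - D i
  omega

include hplus in
theorem sum_plus (P q e : ℕ) (D : ℕ → ℕ) (hD : GD q P D) :
    ∑ d ∈ box P q q D, LG q e (xs P q (ext q d)) = LG q (e + 1) (xs P q D) := by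
  rw [← hplus q e _ (xs_anti hD) (xs_pos hD)]
  apply Finset.sum_nbij' (fun d => xs P q (ext q d)) (fun y => fun i : Fin q => P + q - i - y i)
  · intro d hd
    have hG := GD_of_box P q q D le_rfl hD d hd
    rw [mem_box] at hd
    rw [Fintype.mem_piFinset]
    intro i
    rw [mem_Ioc]
    have h1 := hd i
    have h2 := hG.2 i i.2
    have h3 := i.2
    rw [ext_of _ _ _ i.2, Fin.eta] at h2
    simp only [xs_apply, ext_of _ _ _ i.2, Fin.eta]
    split_ifs with h
    · rw [if_pos h] at h1
      have h5 := hD.2 _ h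
      omega
    · rw [if_neg h] at h1
      omega
  · intro y hy
    rw [Fintype.mem_piFinset] at hy
    rw [mem_box]
    intro i
    have h1 := hy i
    rw [mem_Ioc] at h1
    have h3 := i.2
    have h4 := hD.2 i i.2
    simp only [xs_apply] at h1
    split_ifs with h
    · rw [dif_pos h] at h1
      have h5 := hD.2 _ h
      omega
    · rw [dif_neg h] at h1
      omega
  · intro d hd
    have hG := GD_of_box P q q D le_rfl hD d hd
    funext i
    have h2 := hG.2 i i.2
    have h3 := i.2
    rw [ext_of _ _ _ i.2, Fin.eta] at h2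
    simp only [xs_apply, ext_of _ _ _ i.2, Fin.eta]
    omega
  · intro y hy
    rw [Fintype.mem_piFinset] at hy
    funext i
    have h1 := hy i
    rw [mem_Ioc] at h1
    have h3 := i.2
    have h4 := hD.2 i i.2
    simp only [xs_apply, ext_of _ _ _ i.2, Fin.eta] at h1 ⊢
    omega
  · intro d _
    rfl

include hgrow in
theorem sum_grow (P q : ℕ) (D : ℕ → ℕ) (hD : GD (q + 1) P D) :
    ∑ d ∈ box P q (q + 1) D, LG q 1 (xs P q (ext q d)) = LG (q + 1) 0 (xs P (q + 1) D) := by
  rw [← hgrow q _ (xs_anti hD) (xs_pos hD)]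
  apply Finset.sum_nbij' (fun d => xs P q (ext q d)) (fun y => fun i : Fin q => P + q - i - y i)
  · intro d hd
    have hG := GD_of_box P q (q + 1) D (by omega) hD d hd
    rw [mem_box] at hd
    rw [Fintype.mem_piFinset]
    intro i
    rw [mem_Ico]
    have h1 := hd i
    have h2 := hG.2 i i.2
    have h3 := i.2
    rw [if_pos (by omega)] at h1
    have h5 := hD.2 (i + 1) (by omega)
    rw [ext_of _ _ _ i.2, Fin.eta] at h2
    simp only [xs_apply, ext_of _ _ _ i.2, Fin.eta, Fin.val_succ, Fin.val_castSucc]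
    omega
  · intro y hy
    rw [Fintype.mem_piFinset] at hy
    rw [mem_box]
    intro i
    have h1 := hy i
    rw [mem_Ico] at h1
    have h3 := i.2
    have h4 := hD.2 i (by omega)
    have h5 := hD.2 (i + 1) (by omega)
    simp only [xs_apply, Fin.val_succ, Fin.val_castSucc] at h1
    rw [if_pos (by omega)]
    omega
  · intro d hd
    have hG := GD_of_box P q (q + 1) D (by omega) hD d hd
    funext i
    have h2 := hG.2 i i.2
    have h3 := i.2
    rw [ext_of _ _ _ i.2, Fin.eta] at h2
    simp only [xs_apply, ext_of _ _ _ i.2, Fin.eta]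
    omega
  · intro y hy
    rw [Fintype.mem_piFinset] at hy
    funext i
    have h1 := hy i
    rw [mem_Ico] at h1
    have h3 := i.2
    have h4 := hD.2 i (by omega)
    have h5 := hD.2 (i + 1) (by omega)
    simp only [xs_apply, ext_of _ _ _ i.2, Fin.eta, Fin.val_succ, Fin.val_castSucc] at h1 ⊢
    omega
  · intro d _
    rfl

/-! ### the count -/

theorem card_zero (K P : ℕ) (D : ℕ → ℕ) : Finite (AS K P 0 D) ∧ Nat.card (AS K P 0 D) = 1 := by
  have h0 : szz K 0 = 0 := by unfold szz; omega
  have : Unique (AS K P 0 D) :=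
    { default := ⟨fun _ _ => 0, ⟨fun _ _ _ => rfl, fun _ _ => Nat.zero_le _,
        fun _ _ h => by omega, fun _ _ h => by omega⟩, fun i hi => by omega⟩
      uniq := by
        rintro ⟨A, hA, hl⟩
        apply Subtype.ext
        funext s i
        exact hA.out s i (by
          rintro ⟨h1, h2⟩
          have : s = 0 := by omega
          rw [this, h0] at h2
          omega) }
  exact ⟨inferInstance, Nat.card_unique⟩

include hplus hgrow in
theorem card_AS1 (K P : ℕ) : ∀ q ≤ K, ∀ D : ℕ → ℕ, GD q P D →
    Finite (AS K P (2 * q) D) ∧ (Nat.card (AS K P (2 * q) D) : ℤ) = LG q 1 (xs P q D) := by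
  intro q
  induction q with
  | zero =>
    intro _ D _
    obtain ⟨h1, h2⟩ := card_zero K P D
    refine ⟨h1, ?_⟩
    rw [show 2 * 0 = 0 by rfl, h2]
    simp [LG]
  | succ q ih =>
    intro hq D hD
    have hs0 : szz K (2 * q) = q := by unfold szz; omega
    have hs1 : szz K (2 * q + 1) = q + 1 := by unfold szz; omega
    have hs2 : szz K (2 * q + 1 + 1) = q + 1 := by unfold szz; omega
    have key : ∀ D : ℕ → ℕ, GD (q + 1) P D → Finite (AS K P (2 * q + 1) D) ∧
        (Nat.card (AS K P (2 * q + 1) D) : ℤ) = LG (q + 1) 0 (xs P (q + 1) D) := by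
      intro D hD
      obtain ⟨h1, h2⟩ := card_step K P (2 * q) D (by rw [hs1]; exact hD) (by
        rw [hs0, hs1]
        intro d hd
        exact (ih (by omega) _ (GD_of_box P q (q + 1) D (by omega) hD d hd)).1)
      refine ⟨h1, ?_⟩
      rw [h2, hs0, hs1, ← sum_grow hgrow P q D hD, Nat.cast_sum]
      apply Finset.sum_congr rfl
      intro d hd
      exact (ih (by omega) _ (GD_of_box P q (q + 1) D (by omega) hD d hd)).2
    obtain ⟨h1, h2⟩ := card_step K P (2 * q + 1) D (by rw [hs2]; exact hD) (by
      rw [hs2, hs1]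
      intro d hd
      exact (key _ (GD_of_box P (q + 1) (q + 1) D le_rfl hD d hd)).1)
    rw [show 2 * (q + 1) = 2 * q + 1 + 1 by ring]
    refine ⟨h1, ?_⟩
    rw [h2, hs2, hs1, ← sum_plus hplus P (q + 1) 0 D hD, Nat.cast_sum]
    apply Finset.sum_congr rfl
    intro d hd
    exact (key _ (GD_of_box P (q + 1) (q + 1) D le_rfl hD d hd)).2

include hplus hgrow in
theorem card_AS2 (K P e : ℕ) : ∀ D : ℕ → ℕ, GD K P D →
    Finite (AS K P (2 * K + e) D) ∧ (Nat.card (AS K P (2 * K + e) D) : ℤ)
      = LG K (e + 1) (xs P K D) := by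
  induction e with
  | zero =>
    intro D hD
    exact card_AS1 hplus hgrow K P K le_rfl D hD
  | succ e ih =>
    intro D hD
    have hs0 : szz K (2 * K + e) = K := by unfold szz; omega
    have hs1 : szz K (2 * K + e + 1) = K := by unfold szz; omega
    obtain ⟨h1, h2⟩ := card_step K P (2 * K + e) D (by rw [hs1]; exact hD) (by
      rw [hs1, hs0]
      intro d hd
      exact (ih _ (GD_of_box P K K D le_rfl hD d hd)).1)
    refine ⟨h1, ?_⟩
    rw [show 2 * K + (e + 1) = 2 * K + e + 1 by ring, h2, hs1, hs0,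
      ← sum_plus hplus P K (e + 1) D hD, Nat.cast_sum]
    apply Finset.sum_congr rfl
    intro d hd
    exact (ih _ (GD_of_box P K K D le_rfl hD d hd)).2

end Pool.Agent.Helper78.LB
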