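import Pool.Agent.Helper78.LB.Arr

/-!
# Cutting the fillings of the tail along a diagonal

`w = j + v`, `r = m - 1 = 2 k + j + v`; the critical diagonal consists of the cells `(i, i + v)`,
`i < k`.
-/

namespace Pool.Agent.Helper78.LB

open Finset Pool.Agent.Helper43.LB

/-- fillings of the tail as functions on `ℕ × ℕ` -/
structure Tail (k j v p : ℕ) (T : ℕ → ℕ → ℕ) : Prop where
  row : ∀ i c, T i c ≤ T i (c + 1)
  col : ∀ i c, T i c ≤ T (i + 1) c
  le : ∀ i c, T i c ≤ p + j
  hd : ∀ i c, i < k → i + c + 1 ≤ 2 * k + j + v → T i c ≤ p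
  o1 : ∀ i c, i < k → 2 * k + j + v < i + c + 1 → T i c = p + j
  o2 : ∀ i c, k ≤ i → 2 * k + j + v < i + c + 1 + j → T i c = p + j

theorem Tail.row_le {k j v p : ℕ} {T : ℕ → ℕ → ℕ} (h : Tail k j v p T) (i c c' : ℕ)
    (hc : c ≤ c') : T i c ≤ T i c' :=
  monotone_nat_of_le_succ (f := T i) (h.row i) hc

theorem Tail.col_le {k j v p : ℕ} {T : ℕ → ℕ → ℕ} (h : Tail k j v p T) (i i' c : ℕ)
    (hc : i ≤ i') : T i c ≤ T i' c :=
  monotone_nat_of_le_succ (f := fun i => T i c) (fun i => h.col i c) hc

/-- last diagonal of the right part -/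
def Ed (v : ℕ) (D : ℕ → ℕ) : ℕ → ℕ := fun i => if i < v then 0 else D (i - v)

/-- left part -/
def toL (k j v : ℕ) (T : ℕ → ℕ → ℕ) : ℕ → ℕ → ℕ := fun s i =>
  if s ≤ 2 * k + j ∧ i < szz k s then T i (i + (2 * k + j + v) - s) else 0

/-- right part -/
def toR (k v : ℕ) (T : ℕ → ℕ → ℕ) : ℕ → ℕ → ℕ := fun s i =>
  if s ≤ 2 * (k + v) ∧ i < szz (k + v) s ∧ s ≤ i + (2 * k + v) then T (i + (2 * k + v) - s) i else 0

/-- gluing -/
def glue2 (k j v p : ℕ) (A A' : ℕ → ℕ → ℕ) : ℕ → ℕ → ℕ := fun i c =>
  if i < k ∧ i + c + 1 ≤ 2 * k + j + v ∧ i + v ≤ c then A (i + (2 * k + j + v) - c) i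
  else if i + c + 1 + j ≤ 2 * k + j + v then A' (c + (2 * k + v) - i) c
  else p + j

variable {k j v p : ℕ}

theorem toL_arr {T : ℕ → ℕ → ℕ} (h : Tail k j v p T) (D : ℕ → ℕ)
    (hc : ∀ i < k, T i (i + v) = D i) :
    Arr k p (2 * k + j) (toL k j v T) ∧ ∀ i < szz k (2 * k + j), toL k j v T (2 * k + j) i = D i := by
  refine ⟨⟨?_, ?_, ?_, ?_⟩, ?_⟩
  · intro s i hs
    rw [toL, if_neg hs]
  · intro s i
    rw [toL]
    split_ifs with h1
    · unfold szz at h1
      exact h.hd _ _ (by omega) (by omega)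
    · exact Nat.zero_le _
  · intro s i hs hi
    unfold toL szz at *
    rw [if_pos (by omega), if_pos (by omega)]
    have := h.row i (i + (2 * k + j + v) - (s + 1))
    rw [show i + (2 * k + j + v) - (s + 1) + 1 = i + (2 * k + j + v) - s by omega] at this
    exact this
  · intro s i hs hi h2
    unfold toL szz at *
    rw [if_pos (by omega), if_pos (by omega)]
    have := h.col i (i + (2 * k + j + v) - s)
    rw [show i + 1 + (2 * k + j + v) - (s + 1) = i + (2 * k + j + v) - s by omega]
    exact this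
  · intro i hi
    unfold toL szz at *
    rw [if_pos (by omega), show i + (2 * k + j + v) - (2 * k + j) = i + v by omega]
    exact hc i (by omega)

theorem toR_arr {T : ℕ → ℕ → ℕ} (h : Tail k j v p T) (D : ℕ → ℕ)
    (hc : ∀ i < k, T i (i + v) = D i) :
    Arr (k + v) (p + j) (2 * (k + v)) (toR k v T) ∧
      ∀ i < szz (k + v) (2 * (k + v)), toR k v T (2 * (k + v)) i = Ed v D i := by
  refine ⟨⟨?_, ?_, ?_, ?_⟩, ?_⟩
  · intro s i hs
    rw [toR, if_neg (by rintro ⟨h1, h2, -⟩; exact hs ⟨h1, h2⟩)]
  · intro s i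
    rw [toR]
    split_ifs with h1
    · exact h.le _ _
    · exact Nat.zero_le _
  · intro s i hs hi
    unfold toR szz at *
    by_cases h1 : s + 1 ≤ i + (2 * k + v)
    · rw [if_pos (by omega), if_pos (by omega)]
      have := h.col (i + (2 * k + v) - (s + 1)) i
      rw [show i + (2 * k + v) - (s + 1) + 1 = i + (2 * k + v) - s by omega] at this
      exact this
    · rw [if_neg (by omega)]
      exact Nat.zero_le _
  · intro s i hs hi h2
    unfold toR szz at *
    by_cases h1 : s ≤ i + (2 * k + v)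
    · rw [if_pos (by omega), if_pos (by omega)]
      have := h.row (i + (2 * k + v) - s) i
      rw [show i + 1 + (2 * k + v) - (s + 1) = i + (2 * k + v) - s by omega]
      exact this
    · rw [if_neg (by omega)]
      exact Nat.zero_le _
  · intro i hi
    unfold toR szz Ed at *
    by_cases h1 : i < v
    · rw [if_neg (by omega), if_pos h1]
    · rw [if_pos (by omega), if_neg h1, ← hc (i - v) (by omega),
        show i + (2 * k + v) - 2 * (k + v) = i - v by omega, show i - v + v = i by omega]

theorem glue_tail {A A' : ℕ → ℕ → ℕ} {D : ℕ → ℕ} (hA : Arr k p (2 * k + j) A)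
    (hl : ∀ i < szz k (2 * k + j), A (2 * k + j) i = D i)
    (hA' : Arr (k + v) (p + j) (2 * (k + v)) A')
    (hl' : ∀ i < szz (k + v) (2 * (k + v)), A' (2 * (k + v)) i = Ed v D i) :
    Tail k j v p (glue2 k j v p A A') ∧ ∀ i < k, glue2 k j v p A A' i (i + v) = D i := by
  have hl1 : ∀ i < k, A (2 * k + j) i = D i := fun i hi => hl i (by unfold szz; omega)
  have hl2 : ∀ i < k, A' (2 * (k + v)) (i + v) = D i := by
    intro i hi
    rw [hl' (i + v) (by unfold szz; omega), Ed, if_neg (by omega), Nat.add_sub_cancel]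
  have hrow : ∀ i c, glue2 k j v p A A' i c ≤ glue2 k j v p A A' i (c + 1) := by
    intro i c
    by_cases hL : i < k ∧ i + c + 1 ≤ 2 * k + j + v ∧ i + v ≤ c
    · rw [glue2, if_pos hL]
      by_cases h1 : i + c + 2 ≤ 2 * k + j + v
      · rw [glue2, if_pos (by omega)]
        have := hA.dn (i + (2 * k + j + v) - (c + 1)) i (by omega) (by unfold szz; omega)
        rw [show i + (2 * k + j + v) - (c + 1) + 1 = i + (2 * k + j + v) - c by omega] at this
        exact this
      · rw [glue2, if_neg (by omega), if_neg (by omega)]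
        exact (hA.le _ _).trans (by omega)
    · by_cases hR : i + c + 1 + j ≤ 2 * k + j + v
      · rw [glue2, if_neg hL, if_pos hR]
        by_cases hL1 : i < k ∧ i + (c + 1) + 1 ≤ 2 * k + j + v ∧ i + v ≤ c + 1
        · rw [glue2, if_pos hL1]
          have h3 : c + 1 = i + v := by omega
          rw [h3, show i + (2 * k + j + v) - (i + v) = 2 * k + j by omega, hl1 i hL1.1,
            ← hl2 i hL1.1, ← h3]
          have := hA'.up (c + (2 * k + v) - i) c (by omega) (by unfold szz; omega)
            (by unfold szz; omega)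
          rw [show c + (2 * k + v) - i + 1 = 2 * (k + v) by omega] at this
          exact this
        · by_cases hR1 : i + (c + 1) + 1 + j ≤ 2 * k + j + v
          · rw [glue2, if_neg hL1, if_pos hR1]
            have := hA'.up (c + (2 * k + v) - i) c (by omega) (by unfold szz; omega)
              (by unfold szz; omega)
            rw [show c + 1 + (2 * k + v) - i = c + (2 * k + v) - i + 1 by omega]
            exact this
          · rw [glue2, if_neg hL1, if_neg hR1]
            exact hA'.le _ _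
      · rw [glue2, if_neg hL, if_neg hR, glue2, if_neg (by omega), if_neg (by omega)]
  have hcol : ∀ i c, glue2 k j v p A A' i c ≤ glue2 k j v p A A' (i + 1) c := by
    intro i c
    by_cases hL : i < k ∧ i + c + 1 ≤ 2 * k + j + v ∧ i + v ≤ c
    · rw [glue2, if_pos hL]
      by_cases hL1 : i + 1 < k ∧ i + 1 + c + 1 ≤ 2 * k + j + v ∧ i + 1 + v ≤ c
      · rw [glue2, if_pos hL1]
        have := hA.up (i + (2 * k + j + v) - c) i (by omega) (by unfold szz; omega)
          (by unfold szz; omega)
        rw [show i + 1 + (2 * k + j + v) - c = i + (2 * k + j + v) - c + 1 by omega]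
        exact this
      · by_cases hR1 : i + 1 + c + 1 + j ≤ 2 * k + j + v
        · rw [glue2, if_neg hL1, if_pos hR1]
          have h3 : c = i + v := by omega
          rw [h3, show i + (2 * k + j + v) - (i + v) = 2 * k + j by omega, hl1 i hL.1,
            ← hl2 i hL.1]
          have := hA'.dn (i + v + (2 * k + v) - (i + 1)) (i + v) (by omega) (by unfold szz; omega)
          rw [show i + v + (2 * k + v) - (i + 1) + 1 = 2 * (k + v) by omega] at this
          exact this
        · rw [glue2, if_neg hL1, if_neg hR1]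
          exact (hA.le _ _).trans (by omega)
    · by_cases hR : i + c + 1 + j ≤ 2 * k + j + v
      · rw [glue2, if_neg hL, if_pos hR]
        have hL1 : ¬ (i + 1 < k ∧ i + 1 + c + 1 ≤ 2 * k + j + v ∧ i + 1 + v ≤ c) := by omega
        by_cases hR1 : i + 1 + c + 1 + j ≤ 2 * k + j + v
        · rw [glue2, if_neg hL1, if_pos hR1]
          have := hA'.dn (c + (2 * k + v) - (i + 1)) c (by omega) (by unfold szz; omega)
          rw [show c + (2 * k + v) - (i + 1) + 1 = c + (2 * k + v) - i by omega] at this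
          exact this
        · rw [glue2, if_neg hL1, if_neg hR1]
          exact hA'.le _ _
      · rw [glue2, if_neg hL, if_neg hR, glue2, if_neg (by omega), if_neg (by omega)]
  have hcrit : ∀ i < k, glue2 k j v p A A' i (i + v) = D i := by
    intro i hi
    rw [glue2, if_pos (by omega), show i + (2 * k + j + v) - (i + v) = 2 * k + j by omega]
    exact hl1 i hi
  refine ⟨⟨hrow, hcol, ?_, ?_, ?_, ?_⟩, hcrit⟩
  · intro i c
    unfold glue2
    split_ifs with h1 h2
    · exact (hA.le _ _).trans (by omega)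
    · exact hA'.le _ _
    · exact le_rfl
  · intro i c hi hc
    by_cases h1 : i + v ≤ c
    · rw [glue2, if_pos ⟨hi, hc, h1⟩]
      exact hA.le _ _
    · have h2 : glue2 k j v p A A' i c ≤ glue2 k j v p A A' i (i + v) :=
        monotone_nat_of_le_succ (f := glue2 k j v p A A' i) (hrow i) (by omega)
      rw [hcrit i hi, ← hl1 i hi] at h2
      exact h2.trans (hA.le _ _)
  · intro i c hi hc
    rw [glue2, if_neg (by omega), if_neg (by omega)]
  · intro i c hi hc
    rw [glue2, if_neg (by omega), if_neg (by omega)]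

theorem squeeze {A' : ℕ → ℕ → ℕ} {D : ℕ → ℕ} (hA' : Arr (k + v) (p + j) (2 * (k + v)) A')
    (hl' : ∀ i < szz (k + v) (2 * (k + v)), A' (2 * (k + v)) i = Ed v D i) :
    ∀ n s i, s + n = 2 * (k + v) → i + (2 * k + v) < s → A' s i = 0 := by
  intro n
  induction n with
  | zero =>
    intro s i h1 h2
    have hs : s = 2 * (k + v) := by omega
    rw [hs, hl' i (by unfold szz; omega), Ed, if_pos (by omega)]
  | succ n ih =>
    intro s i h1 h2
    have h3 := hA'.up s i (by omega) (by unfold szz; omega) (by unfold szz; omega)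
    rw [ih (s + 1) (i + 1) (by omega) (by omega)] at h3
    omega

theorem glue_toL {A A' : ℕ → ℕ → ℕ} (hA : Arr k p (2 * k + j) A) :
    toL k j v (glue2 k j v p A A') = A := by
  funext s i
  unfold toL
  split_ifs with h1
  · unfold szz at h1
    rw [glue2, if_pos (by omega),
      show i + (2 * k + j + v) - (i + (2 * k + j + v) - s) = s by omega]
  · exact (hA.out s i h1).symm

theorem glue_toR {A A' : ℕ → ℕ → ℕ} {D : ℕ → ℕ}
    (hl : ∀ i < szz k (2 * k + j), A (2 * k + j) i = D i)
    (hA' : Arr (k + v) (p + j) (2 * (k + v)) A')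
    (hl' : ∀ i < szz (k + v) (2 * (k + v)), A' (2 * (k + v)) i = Ed v D i) :
    toR k v (glue2 k j v p A A') = A' := by
  funext s i
  unfold toR
  split_ifs with h1
  · obtain ⟨h1, h2, h3⟩ := h1
    have h2' := h2
    unfold szz at h2
    by_cases hL : i + (2 * k + v) - s < k ∧ i + (2 * k + v) - s + i + 1 ≤ 2 * k + j + v ∧
        i + (2 * k + v) - s + v ≤ i
    · rw [glue2, if_pos hL]
      have hs : s = 2 * (k + v) := by omega
      rw [hs, hl' i (by rw [← hs]; exact h2'), Ed, if_neg (by omega),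
        show i + (2 * k + v) - 2 * (k + v) + (2 * k + j + v) - i = 2 * k + j by omega,
        hl _ (by unfold szz; omega), show i + (2 * k + v) - 2 * (k + v) = i - v by omega]
    · rw [glue2, if_neg hL, if_pos (by omega),
        show i + (2 * k + v) - (i + (2 * k + v) - s) = s by omega]
  · by_cases h2 : s ≤ 2 * (k + v) ∧ i < szz (k + v) s
    · exact (squeeze hA' hl' (2 * (k + v) - s) s i (by omega) (by omega)).symm
    · exact (hA'.out s i h2).symm

theorem glue_to {T : ℕ → ℕ → ℕ} (h : Tail k j v p T) :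
    glue2 k j v p (toL k j v T) (toR k v T) = T := by
  funext i c
  unfold glue2
  split_ifs with h1 h2
  · rw [toL, if_pos (by unfold szz; omega),
      show i + (2 * k + j + v) - (i + (2 * k + j + v) - c) = c by omega]
  · rw [toR, if_pos (by unfold szz; omega),
      show c + (2 * k + v) - (c + (2 * k + v) - i) = i by omega]
  · by_cases hi : i < k
    · exact (h.o1 i c hi (by omega)).symm
    · exact (h.o2 i c (by omega) (by omega)).symm

/-- the critical diagonal -/
def crit (x : {T : ℕ → ℕ → ℕ // Tail k j v p T}) :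
    {d : Fin k → ℕ // d ∈ (Fintype.piFinset fun _ : Fin k => Icc 0 p).filter
      fun d => ∀ i : Fin k, ∀ h : (i : ℕ) + 1 < k, d i ≤ d ⟨i + 1, h⟩} :=
  ⟨fun i => x.1 i (i + v), by
    rw [mem_filter, Fintype.mem_piFinset]
    constructor
    · intro i
      rw [mem_Icc]
      exact ⟨Nat.zero_le _, x.2.hd _ _ i.2 (by have := i.2; omega)⟩
    · intro i h
      have h1 := x.2.row i (i + v)
      have h2 := x.2.col i (i + v + 1)
      rw [show (i : ℕ) + v + 1 = i + 1 + v by omega] at h1 h2
      exact h1.trans h2⟩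

/-- fibers of `crit` -/
def critEquiv (d : {d : Fin k → ℕ // d ∈ (Fintype.piFinset fun _ : Fin k => Icc 0 p).filter
      fun d => ∀ i : Fin k, ∀ h : (i : ℕ) + 1 < k, d i ≤ d ⟨i + 1, h⟩}) :
    {x : {T : ℕ → ℕ → ℕ // Tail k j v p T} // crit x = d}
      ≃ AS k p (2 * k + j) (ext k d.1) × AS (k + v) (p + j) (2 * (k + v)) (Ed v (ext k d.1)) where
  toFun x := ⟨⟨toL k j v x.1.1, toL_arr x.1.2 _ (by
      intro i hi
      rw [ext_of _ _ _ hi]
      exact congrFun (congrArg Subtype.val x.2) ⟨i, hi⟩)⟩,
    ⟨toR k v x.1.1, toR_arr x.1.2 _ (by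
      intro i hi
      rw [ext_of _ _ _ hi]
      exact congrFun (congrArg Subtype.val x.2) ⟨i, hi⟩)⟩⟩
  invFun y := ⟨⟨glue2 k j v p y.1.1 y.2.1, (glue_tail y.1.2.1 y.1.2.2 y.2.2.1 y.2.2.2).1⟩, by
    apply Subtype.ext
    funext i
    show glue2 k j v p y.1.1 y.2.1 i (i + v) = d.1 i
    rw [(glue_tail y.1.2.1 y.1.2.2 y.2.2.1 y.2.2.2).2 i i.2, ext_of _ _ _ i.2]⟩
  left_inv x := by
    apply Subtype.ext
    apply Subtype.ext
    exact glue_to x.1.2
  right_inv y := by
    apply Prod.ext
    · apply Subtype.ext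
      exact glue_toL y.1.2.1
    · apply Subtype.ext
      exact glue_toR y.1.2.2 y.2.2.1 y.2.2.2

end Pool.Agent.Helper78.LB
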