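import Pool.Agent.Helper78.LB.Glue2

/-!
# The number of fillings of the tail as a sum over subsets
-/

namespace Pool.Agent.Helper78.LB

open Finset Pool.Agent.Helper43.LB

/-! ### fillings on `Fin × Fin` and on `ℕ × ℕ` -/

/-- the two kinds of fillings -/
def fillEquiv (k j v p r : ℕ) (hr : r = 2 * k + j + v) (l c : ℕ → ℕ)
    (hl : ∀ i < r, l i = if i < k then r - i else r - i - j)
    (hc : ∀ i < r, 0 < l i → c i = if i < k then p else p + j) :
    {T : Fin r → Fin r → Fin (p + j + 1) // Fill r r (p + j) l c T}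
      ≃ {T : ℕ → ℕ → ℕ // Tail k j v p T} where
  toFun T := ⟨fun i c => if h : i < r ∧ c < r then (T.1 ⟨i, h.1⟩ ⟨c, h.2⟩ : ℕ) else p + j, by
    obtain ⟨T, h1, h2, h3, h4⟩ := T
    have hle : ∀ i c, (T i c : ℕ) ≤ p + j := fun i c => by have := (T i c).2; omega
    constructor
    · intro i c
      split_ifs with h5 h6 h6
      · exact h1 _ _ _ (Nat.le_succ c)
      · exact hle _ _
      · omega
      · exact le_rfl
    · intro i c
      split_ifs with h5 h6 h6
      · exact h2 _ _ _ (Nat.le_succ i)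
      · exact hle _ _
      · omega
      · exact le_rfl
    · intro i c
      split_ifs with h5
      · exact hle _ _
      · exact le_rfl
    · intro i c hi hc'
      have hir : i < r := by omega
      have hcr : c < r := by omega
      rw [dif_pos ⟨hir, hcr⟩]
      have h5 := hl i hir
      rw [if_pos hi] at h5
      have h6 := h3 ⟨i, hir⟩ ⟨c, hcr⟩ (by show c < l i; omega)
      have h7 := hc i hir (by omega)
      rw [if_pos hi] at h7
      exact h6.trans h7.le
    · intro i c hi hc'
      split_ifs with h5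
      · have h6 := hl i h5.1
        rw [if_pos hi] at h6
        exact h4 ⟨i, h5.1⟩ ⟨c, h5.2⟩ (by show l i ≤ c; omega)
      · rfl
    · intro i c hi hc'
      split_ifs with h5
      · have h6 := hl i h5.1
        rw [if_neg (by omega)] at h6
        exact h4 ⟨i, h5.1⟩ ⟨c, h5.2⟩ (by show l i ≤ c; omega)
      · rfl⟩
  invFun T := ⟨fun i c => ⟨T.1 i c, by have := T.2.le i c; omega⟩, by
    obtain ⟨T, hT⟩ := T
    refine ⟨?_, ?_, ?_, ?_⟩
    · intro i c c' h
      exact hT.row_le i c c' h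
    · intro i i' c h
      exact hT.col_le i i' c h
    · intro i c' h
      show T i c' ≤ c i
      have h5 := hl i i.2
      have h7 := hc i i.2 (by omega)
      split_ifs at h5 h7 with hi
      · rw [h7]
        exact hT.hd i c' hi (by omega)
      · rw [h7]
        exact hT.le _ _
    · intro i c' h
      show T i c' = p + j
      have h5 := hl i i.2
      split_ifs at h5 with hi
      · exact hT.o1 i c' hi (by omega)
      · exact hT.o2 i c' (by omega) (by omega)⟩
  left_inv T := by
    apply Subtype.ext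
    funext i c
    apply Fin.ext
    show (if h : (i : ℕ) < r ∧ (c : ℕ) < r then (T.1 ⟨i, h.1⟩ ⟨c, h.2⟩ : ℕ) else p + j) = T.1 i c
    rw [dif_pos ⟨i.2, c.2⟩]
  right_inv T := by
    apply Subtype.ext
    funext i c
    show (if h : i < r ∧ c < r then T.1 i c else p + j) = T.1 i c
    split_ifs with h
    · rfl
    · by_cases hi : i < k
      · exact (T.2.o1 i c hi (by omega)).symm
      · exact (T.2.o2 i c (by omega) (by omega)).symm

theorem NE_eq_card (k j v p : ℕ) :
    NE (2 * k + 1 + (j + v)) p (p + j) (eTail (2 * k + 1 + (j + v)) k j)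
      = Nat.card {T : ℕ → ℕ → ℕ // Tail k j v p T} := by
  unfold NE NT
  have hr : 2 * k + 1 + (j + v) - 1 = 2 * k + j + v := by omega
  refine Nat.card_congr (fillEquiv k j v p (2 * k + 1 + (j + v) - 1) hr _ _ ?_ ?_)
  · intro i hi
    unfold eTail
    split_ifs <;> omega
  · intro i hi h
    unfold eTail at *
    split_ifs at * <;> omega

/-! ### the sum over the critical diagonals -/

/-- monotone tuples -/
def Mon (k p : ℕ) : Finset (Fin k → ℕ) := (Fintype.piFinset fun _ : Fin k => Icc 0 p).filter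
      fun d => ∀ i : Fin k, ∀ h : (i : ℕ) + 1 < k, d i ≤ d ⟨i + 1, h⟩

theorem Mon_GD {k p : ℕ} {d : Fin k → ℕ} (hd : d ∈ Mon k p) : GD k p (ext k d) := by
  rw [Mon, mem_filter, Fintype.mem_piFinset] at hd
  constructor
  · intro i hi
    rw [ext_of _ _ _ (by omega : i < k), ext_of _ _ _ hi]
    exact hd.2 ⟨i, by omega⟩ hi
  · intro i hi
    rw [ext_of _ _ _ hi]
    exact (mem_Icc.1 (hd.1 ⟨i, hi⟩)).2

theorem Mon_of_GD {k p : ℕ} {d : Fin k → ℕ} (hd : GD k p (ext k d)) : d ∈ Mon k p := by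
  rw [Mon, mem_filter, Fintype.mem_piFinset]
  constructor
  · intro i
    have := hd.2 i i.2
    rw [ext_of _ _ _ i.2] at this
    exact mem_Icc.2 ⟨Nat.zero_le _, this⟩
  · intro i h
    have := hd.1 i h
    rw [ext_of _ _ _ i.2, ext_of _ _ _ h] at this
    exact this

theorem Ed_GD {k v p j : ℕ} {D : ℕ → ℕ} (h : GD k p D) : GD (k + v) (p + j) (Ed v D) := by
  constructor
  · intro i hi
    unfold Ed
    split_ifs with h1 h2 h2
    · exact le_rfl
    · exact Nat.zero_le _
    · omega
    · have := h.1 (i - v) (by omega)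
      rw [show i - v + 1 = i + 1 - v by omega] at this
      exact this
  · intro i hi
    unfold Ed
    split_ifs with h1
    · exact Nat.zero_le _
    · have := h.2 (i - v) (by omega)
      omega

section main

variable (hplus : ∀ (k e : ℕ) (x : Fin k → ℕ), StrictAnti x → (∀ i, 1 ≤ x i) →
  ∑ y ∈ Fintype.piFinset (fun i : Fin k =>
      Ioc (if h : (i : ℕ) + 1 < k then x ⟨i + 1, h⟩ else 0) (x i)), LG k e y = LG k (e + 1) x)
variable (hgrow : ∀ (k : ℕ) (x : Fin (k + 1) → ℕ), StrictAnti x → (∀ i, 1 ≤ x i) →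
  ∑ y ∈ Fintype.piFinset (fun i : Fin k => Ico (x i.succ) (x i.castSucc)), LG k 1 y
      = LG (k + 1) 0 x)
variable (hLf : ∀ (k : ℕ) (x : Fin k → ℕ), StrictAnti x → (∀ i, 1 ≤ x i) →
    (LG k 1 x : ℝ) = Lf (univ.image x))
variable (hLh : ∀ (k j : ℕ) (x : Fin k → ℕ), StrictAnti x → (∀ i, 1 ≤ x i) →
    (LG k (j + 1) x : ℝ) = Lh j (univ.image x))

include hplus hgrow in
theorem card_Tail (k j v p : ℕ) : (Nat.card {T : ℕ → ℕ → ℕ // Tail k j v p T} : ℤ)
    = ∑ d ∈ Mon k p, LG k (j + 1) (xs p k (ext k d))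
        * LG (k + v) 1 (xs (p + j) (k + v) (Ed v (ext k d))) := by
  have e1 := (Equiv.sigmaFiberEquiv (crit (k := k) (j := j) (v := v) (p := p))).symm.trans
    (Equiv.sigmaCongrRight (critEquiv (k := k) (j := j) (v := v) (p := p)))
  have hL : ∀ d : Fin k → ℕ, d ∈ Mon k p → Finite (AS k p (2 * k + j) (ext k d)) ∧
      (Nat.card (AS k p (2 * k + j) (ext k d)) : ℤ) = LG k (j + 1) (xs p k (ext k d)) :=
    fun d hd => card_AS2 hplus hgrow k p j _ (Mon_GD hd)
  have hR : ∀ d : Fin k → ℕ, d ∈ Mon k p →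
      Finite (AS (k + v) (p + j) (2 * (k + v)) (Ed v (ext k d))) ∧
      (Nat.card (AS (k + v) (p + j) (2 * (k + v)) (Ed v (ext k d))) : ℤ)
        = LG (k + v) 1 (xs (p + j) (k + v) (Ed v (ext k d))) :=
    fun d hd => card_AS1 hplus hgrow (k + v) (p + j) (k + v) le_rfl _ (Ed_GD (Mon_GD hd))
  have i1 : ∀ d : {d : Fin k → ℕ // d ∈ Mon k p}, Finite (AS k p (2 * k + j) (ext k d.1)
      × AS (k + v) (p + j) (2 * (k + v)) (Ed v (ext k d.1))) := by
    intro d
    have := (hL d.1 d.2).1
    have := (hR d.1 d.2).1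
    infer_instance
  have h2 : Nat.card {T : ℕ → ℕ → ℕ // Tail k j v p T} = Nat.card
      ((d : {d : Fin k → ℕ // d ∈ Mon k p}) × (AS k p (2 * k + j) (ext k d.1)
      × AS (k + v) (p + j) (2 * (k + v)) (Ed v (ext k d.1)))) := Nat.card_congr e1
  rw [h2, Nat.card_sigma, Nat.cast_sum, ← Finset.sum_coe_sort (Mon k p)
    (fun d => LG k (j + 1) (xs p k (ext k d))
        * LG (k + v) 1 (xs (p + j) (k + v) (Ed v (ext k d))))]
  apply Finset.sum_congr rfl
  intro d _
  rw [Nat.card_prod, Nat.cast_mul, (hL d.1 d.2).2, (hR d.1 d.2).2]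

theorem anti_bounds {k a : ℕ} (x : Fin k → ℕ) (hx : StrictAnti x) (h1 : ∀ i, 1 ≤ x i)
    (h2 : ∀ i, x i ≤ a) (i : Fin k) : k - i ≤ x i ∧ x i + i ≤ a := by
  constructor
  · obtain ⟨i, hi⟩ := i
    obtain ⟨n, hn⟩ : ∃ n, i + n + 1 = k := ⟨k - 1 - i, by omega⟩
    induction n generalizing i with
    | zero =>
      have := h1 ⟨i, hi⟩
      show k - i ≤ x ⟨i, hi⟩
      omega
    | succ n ih =>
      have h3 := ih (i + 1) (by omega) (by omega)
      have h4 : x ⟨i + 1, by omega⟩ < x ⟨i, hi⟩ := hx (by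
        show i < i + 1; omega)
      show k - i ≤ x ⟨i, hi⟩
      have h5 : k - (i + 1) ≤ x ⟨i + 1, by omega⟩ := h3
      omega
  · obtain ⟨i, hi⟩ := i
    induction i with
    | zero => exact h2 _
    | succ i ih =>
      have h3 := ih (by omega)
      have h4 : x ⟨i + 1, hi⟩ < x ⟨i, by omega⟩ := hx (by
        show i < i + 1; omega)
      show x ⟨i + 1, hi⟩ + (i + 1) ≤ a
      have h5 : x ⟨i, by omega⟩ + i ≤ a := h3
      omega

theorem image_Ed (k j v p : ℕ) (D : ℕ → ℕ) (hD : GD k p D) :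
    univ.image (xs (p + j) (k + v) (Ed v D)) = (univ.image (xs p k D)).image (· + j)
      ∪ Ico (p + k + j + 1) (p + k + (j + v) + 1) := by
  ext y
  simp only [mem_image, mem_univ, true_and, mem_union, mem_Ico, xs_apply, Ed]
  constructor
  · rintro ⟨i, rfl⟩
    have hi := i.2
    by_cases h : (i : ℕ) < v
    · right
      rw [if_pos h]
      omega
    · left
      have := hD.2 (i - v) (by omega)
      refine ⟨_, ⟨⟨i - v, by omega⟩, rfl⟩, ?_⟩
      rw [if_neg h]
      show p + k - (i - v) - D (i - v) + j = _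
      omega
  · rintro (⟨_, ⟨i, rfl⟩, rfl⟩ | ⟨h1, h2⟩)
    · have hi := i.2
      have := hD.2 i hi
      refine ⟨⟨i + v, by omega⟩, ?_⟩
      show p + j + (k + v) - (i + v) - (if (i : ℕ) + v < v then 0 else D (i + v - v)) = _
      rw [if_neg (by omega), Nat.add_sub_cancel]
      omega
    · refine ⟨⟨p + j + (k + v) - y, by omega⟩, ?_⟩
      show p + j + (k + v) - (p + j + (k + v) - y) - (if p + j + (k + v) - y < v then 0 else
        D (p + j + (k + v) - y - v)) = _
      rw [if_pos (by omega)]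
      omega

include hplus hgrow hLf hLh in
theorem NE_tail_of (k w j p : ℕ) (hj : j ≤ w) :
    (NE (2 * k + 1 + w) p (p + j) (eTail (2 * k + 1 + w) k j) : ℝ) = Tf k w j p := by
  obtain ⟨v, rfl⟩ : ∃ v, w = j + v := ⟨w - j, by omega⟩
  have h0 : (NE (2 * k + 1 + (j + v)) p (p + j) (eTail (2 * k + 1 + (j + v)) k j) : ℝ)
      = ((∑ d ∈ Mon k p, LG k (j + 1) (xs p k (ext k d))
        * LG (k + v) 1 (xs (p + j) (k + v) (Ed v (ext k d))) : ℤ) : ℝ) := by
    rw [← card_Tail hplus hgrow, NE_eq_card, Int.cast_natCast]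
  rw [h0, Int.cast_sum, Tf]
  refine Finset.sum_bij (fun d _ => univ.image (xs p k (ext k d))) ?_ ?_ ?_ ?_
  · intro d hd
    have hG := Mon_GD hd
    rw [mem_powersetCard]
    constructor
    · intro y hy
      rw [mem_image] at hy
      obtain ⟨i, -, rfl⟩ := hy
      rw [mem_Icc]
      refine ⟨xs_pos hG i, ?_⟩
      rw [xs_apply]
      omega
    · rw [card_image_of_injective _ (xs_anti hG).injective, card_univ, Fintype.card_fin]
  · intro d hd d' hd' he
    have hG := Mon_GD hd
    have hG' := Mon_GD hd'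
    have he' : univ.image (xs p k (ext k d)) = univ.image (xs p k (ext k d')) := he
    have m1 : StrictMono fun i : Fin k => xs p k (ext k d) (Fin.rev i) := fun a b hab =>
      xs_anti hG (Fin.rev_lt_rev.2 hab)
    have m2 : StrictMono fun i : Fin k => xs p k (ext k d') (Fin.rev i) := fun a b hab =>
      xs_anti hG' (Fin.rev_lt_rev.2 hab)
    have r1 : ∀ f : Fin k → ℕ, Set.range (fun i : Fin k => f (Fin.rev i)) = Set.range f := by
      intro f
      ext y
      constructor
      · rintro ⟨i, rfl⟩; exact ⟨_, rfl⟩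
      · rintro ⟨i, rfl⟩
        refine ⟨Fin.rev i, ?_⟩
        show f (Fin.rev (Fin.rev i)) = f i
        rw [Fin.rev_rev]
    have hr : Set.range (fun i : Fin k => xs p k (ext k d) (Fin.rev i))
        = Set.range (fun i : Fin k => xs p k (ext k d') (Fin.rev i)) := by
      rw [r1, r1]
      have := congrArg (fun s : Finset ℕ => (s : Set ℕ)) he'
      simpa using this
    have hf := (StrictMono.range_inj m1 m2).1 hr
    funext i
    have h3 := congrFun hf (Fin.rev i)
    simp only [Fin.rev_rev, xs_apply] at h3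
    have h4 := hG.2 i i.2
    have h5 := hG'.2 i i.2
    rw [ext_of _ _ _ i.2] at h3 h4
    rw [ext_of _ _ _ i.2] at h3 h5
    rw [Fin.eta] at h3 h4 h5
    have := i.2
    omega
  · intro S hS
    rw [mem_powersetCard] at hS
    obtain ⟨hS1, hS2⟩ := hS
    set x : Fin k → ℕ := fun i => S.orderEmbOfFin hS2 (Fin.rev i) with hx
    have hanti : StrictAnti x := fun a b hab =>
      (S.orderEmbOfFin hS2).strictMono (Fin.rev_lt_rev.2 hab)
    have hmem : ∀ i, x i ∈ Icc 1 (p + k) := fun i => hS1 (S.orderEmbOfFin_mem hS2 _)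
    have hb := anti_bounds x hanti (fun i => (mem_Icc.1 (hmem i)).1)
      (fun i => (mem_Icc.1 (hmem i)).2)
    have hxs : xs p k (ext k fun i : Fin k => p + k - i - x i) = x := by
      funext i
      rw [xs_apply, ext_of _ _ _ i.2, Fin.eta]
      have := hb i
      have := i.2
      omega
    refine ⟨fun i => p + k - i - x i, Mon_of_GD ⟨?_, ?_⟩, ?_⟩
    · intro i hi
      rw [ext_of _ _ _ (by omega : i < k), ext_of _ _ _ hi]
      have h4 : x ⟨i + 1, hi⟩ < x ⟨i, by omega⟩ := hanti (by
        show i < i + 1; omega)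
      show p + k - i - x ⟨i, by omega⟩ ≤ p + k - (i + 1) - x ⟨i + 1, hi⟩
      omega
    · intro i hi
      rw [ext_of _ _ _ hi]
      have h5 : k - i ≤ x ⟨i, hi⟩ := (hb ⟨i, hi⟩).1
      show p + k - i - x ⟨i, hi⟩ ≤ p
      omega
    · show univ.image (xs p k (ext k fun i : Fin k => p + k - i - x i)) = S
      rw [hxs]
      ext y
      rw [mem_image]
      constructor
      · rintro ⟨i, -, rfl⟩
        exact S.orderEmbOfFin_mem hS2 _
      · intro hy
        have h6 : y ∈ Set.range (S.orderEmbOfFin hS2) := by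
          rw [range_orderEmbOfFin]
          exact hy
        obtain ⟨i, rfl⟩ := h6
        refine ⟨Fin.rev i, mem_univ _, ?_⟩
        rw [hx]
        show S.orderEmbOfFin hS2 (Fin.rev (Fin.rev i)) = _
        rw [Fin.rev_rev]
  · intro d hd
    have hG := Mon_GD hd
    have hG2 := Ed_GD (v := v) (j := j) hG
    rw [Int.cast_mul, hLh k j _ (xs_anti hG) (xs_pos hG), hLf (k + v) _ (xs_anti hG2) (xs_pos hG2),
      image_Ed k j v p _ hG]

end main

end Pool.Agent.Helper78.LB
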